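import Pool.Agent.Helper92.Ru.GoalsS

/-!
Packet WdHH (S14) for `MP_d1d051_nt`: the twisted height of a wedge product is bounded by the
product of the twisted heights of the factors.
-/

set_option autoImplicit false

open NumberField

namespace Pool.Agent.Helper92.Ru.WdHHProof

theorem ratio_le {k : Type} [Field k] [NumberField k] {T : Finset (FinitePlace k)} {N : ℕ}
    (v : SP k T) (x : Fin N → k) (w : Fin N → ℝ) (hw : ∀ i, 0 < w i) (i : Fin N) :
    nS v (x i) ≤ w i * ⨆ i, nS v (x i) / w i := by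
  have h : nS v (x i) / w i ≤ ⨆ i, nS v (x i) / w i :=
    le_ciSup (f := fun i => nS v (x i) / w i) (Set.finite_range _).bddAbove i
  rw [div_le_iff₀ (hw i)] at h
  linarith

theorem sup_nonneg {k : Type} [Field k] [NumberField k] {T : Finset (FinitePlace k)} {N : ℕ}
    (v : SP k T) (x : Fin N → k) (w : Fin N → ℝ) (hw : ∀ i, 0 < w i) :
    0 ≤ ⨆ i, nS v (x i) / w i :=
  Real.iSup_nonneg fun i => div_nonneg (nS_nonneg v _) (hw i).le

theorem det_le {k : Type} [Field k] [NumberField k] {T : Finset (FinitePlace k)} {r N : ℕ}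
    (v : SP k T) (x : Fin r → Fin N → k) (w : Fin N → ℝ) (hw : ∀ i, 0 < w i) (K : JJ r N) :
    nS v (wd x K) ≤ ((r.factorial : ℝ) ^ 2 * ∏ b, ⨆ i, nS v (x b i) / w i) *
      ∏ a, w (K.emb a) := by
  unfold wd
  rw [Matrix.det_apply]
  have h := nS_sum_le v (Finset.univ : Finset (Equiv.Perm (Fin r)))
    (fun σ => Equiv.Perm.sign σ • ∏ i, (Matrix.of fun a b => x b (K.emb a)) (σ i) i)
    ((∏ b, ⨆ i, nS v (x b i) / w i) * ∏ a, w (K.emb a)) ?_
  · rw [Finset.card_univ, Fintype.card_perm, Fintype.card_fin] at h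
    rw [mul_assoc]
    exact h
  · intro σ _
    have h1 : nS v (Equiv.Perm.sign σ • ∏ i, (Matrix.of fun a b => x b (K.emb a)) (σ i) i) =
        ∏ i, nS v (x i (K.emb (σ i))) := by
      rcases Int.units_eq_one_or (Equiv.Perm.sign σ) with hs | hs
      · rw [hs, one_smul, nS_prod]; rfl
      · rw [hs, Units.neg_smul, one_smul, nS_neg, nS_prod]; rfl
    rw [h1]
    have h2 : ∏ a, w (K.emb a) = ∏ i, w (K.emb (σ i)) :=
      (Equiv.prod_comp σ fun a => w (K.emb a)).symm
    rw [h2, ← Finset.prod_mul_distrib]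
    refine Finset.prod_le_prod (fun i _ => nS_nonneg v _) fun i _ => ?_
    have := ratio_le v (x i) w hw (K.emb (σ i))
    linarith

theorem wdHH (hC : CmpdBasic) : WdHH := by
  intro k _ _ T r N hr hrN A
  refine ⟨∏ _v : SP k T, ((r.factorial : ℝ) ^ 2), by positivity, ?_⟩
  intro w hw y
  unfold HH
  rw [Finset.prod_comm, ← Finset.prod_mul_distrib]
  refine Finset.prod_le_prod (fun v _ => Real.iSup_nonneg fun K =>
    div_nonneg (nS_nonneg v _) (Finset.prod_nonneg fun a _ => (hw v _).le)) fun v _ => ?_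
  refine Real.iSup_le (fun K => ?_) (mul_nonneg (by positivity)
    (Finset.prod_nonneg fun b _ => sup_nonneg v _ _ (hw v)))
  rw [(hC k r N).2.2.2.1 (A v) y, div_le_iff₀ (Finset.prod_pos fun a _ => hw v _)]
  exact det_le v (fun b => (A v).mulVec (y b)) (w v) (hw v) K

end Pool.Agent.Helper92.Ru.WdHHProof
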